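import Mathlib
import Pool.Agent.H358R5.Gaps
import Pool.Agent.H358R5.MainC
import Pool.Agent.H95R2.BG.FinalL
import Pool.Agent.H95R2.BG.Tuple

/-! Primes in translates of sieve windows.  Let `h_j(k)` be the number of integers in `(j, j + k]`
without a prime factor `≤ k`.  If `h_j(k)` is at least `49` (`3560`, `exp (4 t + 0.58)`), then at least
`X ^ (1 - ε)` of the `x ≤ X` with `x ≡ j` modulo all primes `≤ k` are such that `(x, x + k]` contains at
least `2` (`3`, `t + 1`) primes.  The sieve theorems are those of the developments `H95R2.BG` and `H358R5`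
of the starting files. -/

open Finset Filter Pool.Agent.H358R5

namespace Pool.Agent.Results.MP_cbf366_nt.SieveCounts

/-- `h_j(k)`: the number of integers in `(j, j + k]` without a prime factor `≤ k`. -/
def sieveCount (j k : ℕ) : ℕ := ((Ioc j (j + k)).filter fun n => Nat.Coprime n (primorial k)).card

/-- The number of primes in `(x, x + k]`. -/
def primesIn (x k : ℕ) : ℕ := Nat.primeCounting (x + k) - Nat.primeCounting x

theorem primesIn_eq (x k : ℕ) : primesIn x k = ((Ioc x (x + k)).filter Nat.Prime).card := by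
  have e : ∀ n : ℕ, Nat.primeCounting n = ((range (n + 1)).filter Nat.Prime).card := fun n => by
    unfold Nat.primeCounting Nat.primeCounting'
    rw [Nat.count_eq_card_filter_range]
  unfold primesIn
  rw [e, e]
  have h : (range (x + k + 1)).filter Nat.Prime =
      (range (x + 1)).filter Nat.Prime ∪ (Ioc x (x + k)).filter Nat.Prime := by
    ext n
    simp only [mem_filter, mem_range, mem_union, mem_Ioc]
    constructor
    · rintro ⟨h1, h2⟩
      by_cases h3 : n < x + 1
      · exact Or.inl ⟨h3, h2⟩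
      · exact Or.inr ⟨⟨by omega, by omega⟩, h2⟩
    · rintro (⟨h1, h2⟩ | ⟨⟨h1, h1'⟩, h2⟩)
      · exact ⟨by omega, h2⟩
      · exact ⟨by omega, h2⟩
  have hd : Disjoint ((range (x + 1)).filter Nat.Prime) ((Ioc x (x + k)).filter Nat.Prime) := by
    rw [Finset.disjoint_left]
    intro n h1 h2
    simp only [mem_filter, mem_range, mem_Ioc] at h1 h2
    omega
  rw [h, card_union_of_disjoint hd]
  omega

theorem dvd_primorial {p k : ℕ} (hp : p.Prime) (hpk : p ≤ k) : p ∣ primorial k := by
  unfold primorial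
  exact dvd_prod_of_mem _ (by simp [hp]; omega)

theorem squarefree_primorial (k : ℕ) : Squarefree (primorial k) := by
  unfold primorial
  refine Finset.squarefree_prod_of_pairwise_isCoprime ?_ ?_
  · intro a ha b hb hab
    simp only [coe_filter, mem_range, Set.mem_ofPred_eq] at ha hb
    exact (Nat.coprime_iff_isRelPrime.1 ((Nat.coprime_primes ha.2 hb.2).2 hab))
  · intro p hp
    simp only [mem_filter, mem_range] at hp
    exact hp.2.prime.squarefree

theorem windows (t K : ℕ) (hC : CHyp t K) (k j : ℕ) (hK : K ≤ sieveCount j k) (ε : ℝ) (hε : 0 < ε) :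
    ∀ᶠ X : ℝ in atTop, X ^ (1 - ε) ≤ (Set.ncard {x : ℕ | (x : ℝ) ≤ X ∧ x ≡ j [MOD primorial k] ∧
      t + 1 ≤ primesIn x k} : ℝ) := by
  classical
  obtain ⟨T, hTS, hTc⟩ := Finset.exists_subset_card_eq hK
  let e : Fin K → ℕ := fun i => T.orderEmbOfFin hTc i
  have heinj : Function.Injective e := fun i i' hij => (T.orderEmbOfFin hTc).injective hij
  have hemem : ∀ i, e i ∈ (Ioc j (j + k)).filter fun n => Nat.Coprime n (primorial k) :=
    fun i => hTS (T.orderEmbOfFin_mem hTc i)
  simp only [mem_filter, mem_Ioc] at hemem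
  let h : Fin K → ℕ := fun i => e i - (j + 1)
  have hh : ∀ i, (j + 1) + h i = e i := fun i => by
    have := (hemem i).1.1
    simp only [h]; omega
  have hlt : ∀ i, h i + 1 ≤ k := fun i => by
    have h1 := hh i
    have h2 := (hemem i).1.2
    omega
  have hinj : Function.Injective h := fun i i' hij => heinj (by rw [← hh i, ← hh i', hij])
  have hAdm : Adm h := by
    refine ⟨hinj, fun p hp => ?_⟩
    by_cases hpk : p ≤ k
    · refine ⟨j + 1, fun i hd => ?_⟩
      rw [hh i] at hd
      have := Nat.dvd_gcd hd (dvd_primorial hp hpk)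
      rw [(hemem i).2] at this
      exact hp.one_lt.ne' (Nat.dvd_one.1 this)
    · refine ⟨1, fun i hd => ?_⟩
      have h1 := Nat.le_of_dvd (by omega) hd
      have h2 := hlt i
      omega
  filter_upwards [hC h hAdm (primorial k) (j + 1) (squarefree_primorial k)
    (fun i => by rw [hh i]; exact (hemem i).2) ε hε] with X hX
  refine hX.trans ?_
  have hfin : {x : ℕ | (x : ℝ) ≤ X ∧ x ≡ j [MOD primorial k] ∧ t + 1 ≤ primesIn x k}.Finite :=
    (Set.finite_Iic ⌊X⌋₊).subset fun x hx => Nat.le_floor hx.1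
  rw [Set.ncard_eq_toFinset_card _ hfin]
  norm_cast
  refine Finset.card_le_card_of_injOn (fun n => n - 1) ?_ ?_
  · intro n hn
    have hn' := Finset.mem_filter.1 (Finset.mem_coe.1 hn)
    obtain ⟨h1, h2, h3⟩ := hn'
    rw [mem_Icc] at h1
    have hX0 : (n : ℝ) ≤ X := by
      by_contra hc
      have := Nat.floor_lt' (R := ℝ) (a := X) (n := n) (by omega)
      have := this.2 (not_le.1 hc)
      omega
    have hcast : ((n - 1 : ℕ) : ℝ) ≤ X := le_trans (by exact_mod_cast Nat.sub_le n 1) hX0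
    simp only [Set.Finite.coe_toFinset, Set.mem_ofPred_eq]
    refine ⟨hcast, ?_, ?_⟩
    · have : n - 1 + 1 ≡ j + 1 [MOD primorial k] := by
        rw [Nat.sub_add_cancel h1.1]; exact h2
      exact Nat.ModEq.add_right_cancel' 1 this
    · rw [primesIn_eq]
      refine h3.trans (Finset.card_le_card_of_injOn (fun i => n + h i) ?_ ?_)
      · intro i hi
        have hi' : (n + h i).Prime := (Finset.mem_filter.1 (Finset.mem_coe.1 hi)).2
        have := hlt i
        simp only [Finset.coe_filter, Finset.mem_Ioc, Set.mem_ofPred_eq]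
        refine ⟨⟨by omega, by omega⟩, hi'⟩
      · intro i _ i' _ hij
        exact hinj (by simpa using hij)
  · intro n hn n' hn' hnn
    have h1 := (Finset.mem_Icc.1 (Finset.mem_filter.1 (Finset.mem_coe.1 hn)).1).1
    have h2 := (Finset.mem_Icc.1 (Finset.mem_filter.1 (Finset.mem_coe.1 hn')).1).1
    simp only at hnn
    omega

theorem lhyp2 : LHyp 1 49 := by
  intro A B hA hne hloc ε hε
  filter_upwards [H95R2.BG.LF.dhl49L A B ⟨hA, hne, hloc⟩ ε hε] with X hX
  refine hX.trans (Nat.cast_le.2 (Finset.card_le_card fun n hn => ?_))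
  unfold H95R2.BG.LF.goodL at hn
  have hn' := Finset.mem_filter.1 hn
  refine Finset.mem_filter.2 ⟨hn'.1, ?_⟩
  obtain ⟨i, i', hii, h1, h2⟩ := hn'.2
  exact Finset.one_lt_card.2 ⟨i, mem_filter.2 ⟨mem_univ _, h1⟩, i', mem_filter.2 ⟨mem_univ _, h2⟩, hii⟩

theorem window_of_adm (K k : ℕ) (h : Fin K → ℕ) (hA : Adm h) (hle : ∀ i, h i + 1 ≤ k) :
    ∃ j : ℕ, K ≤ sieveCount j k := by
  classical
  choose! r hr using hA.2
  let S : Finset ℕ := (range (k + 1)).filter Nat.Prime
  obtain ⟨a, ha⟩ := Nat.chineseRemainderOfFinset r id S (fun p hp => (mem_filter.1 hp).2.ne_zero)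
    (fun p hp q hq hpq => (Nat.coprime_primes (mem_filter.1 hp).2 (mem_filter.1 hq).2).2 hpq)
  -- replace `a` by a positive representative `a + P`
  refine ⟨a + primorial k - 1, ?_⟩
  have hP : 0 < primorial k := primorial_pos k
  have hmem : ∀ i, a + primorial k + h i ∈
      (Ioc (a + primorial k - 1) (a + primorial k - 1 + k)).filter
        fun n => Nat.Coprime n (primorial k) := by
    intro i
    have := hle i
    rw [mem_filter, mem_Ioc]
    refine ⟨⟨by omega, by omega⟩, ?_⟩
    refine Nat.Coprime.symm ?_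
    unfold primorial
    refine Nat.Coprime.prod_left fun p hp => ?_
    have hp' := (mem_filter.1 hp).2
    refine (Nat.Prime.coprime_iff_not_dvd hp').2 fun hd => hr p hp' i ?_
    have h1 : p ∣ primorial k := dvd_primorial hp' (by have := (mem_filter.1 hp).1; rw [mem_range] at this; omega)
    have h2 : a ≡ r p [MOD p] := ha p hp
    have h3 : p ∣ a + h i := by
      have : p ∣ primorial k + (a + h i) := by
        have h4 : a + ∏ p ∈ range (k + 1) with Nat.Prime p, p + h i = primorial k + (a + h i) := by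
          unfold primorial; ring
        rwa [h4] at hd
      exact (Nat.dvd_add_right h1).1 this
    exact (Nat.ModEq.dvd_iff (h2.add_right (h i)) dvd_rfl).1 h3
  have := Finset.card_le_card_of_injOn (s := (univ : Finset (Fin K)))
    (t := (Ioc (a + primorial k - 1) (a + primorial k - 1 + k)).filter
        fun n => Nat.Coprime n (primorial k)) (fun i => a + primorial k + h i)
    (fun i _ => hmem i) (fun i _ i' _ hij => hA.1 (by simpa using hij))
  simpa [sieveCount] using this

/-- **Primes in translates of sieve windows.** -/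
theorem result (k j t : ℕ)
    (hk : t = 1 ∧ 49 ≤ sieveCount j k ∨ t = 2 ∧ 3560 ≤ sieveCount j k ∨
      2 ≤ t ∧ Real.exp (4 * t + 29 / 50) ≤ sieveCount j k) (ε : ℝ) (hε : 0 < ε) :
    ∀ᶠ X : ℝ in atTop, X ^ (1 - ε) ≤
      (Set.ncard {x : ℕ | (x : ℝ) ≤ X ∧ x ≡ j [MOD primorial k] ∧ t + 1 ≤ primesIn x k} : ℝ) := by
  rcases hk with ⟨rfl, h⟩ | ⟨rfl, h⟩ | ⟨h2, h⟩
  · exact windows 1 49 (CLS_proof 1 49 lhyp2) k j h ε hε
  · exact windows 2 3560 chyp3 k j h ε hε
  · have hpos : (0 : ℝ) < (sieveCount j k : ℝ) := lt_of_lt_of_le (Real.exp_pos _) h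
    exact windows t (sieveCount j k) (chyp t _ h2 ((Real.le_log_iff_exp_le hpos).2 h)) k j le_rfl ε hε

/-- The consequence for `ρ(k) = limsup (π (x + k) - π x)`: if `max_j h_j(k) ≥ 49` (`3560`, `exp (4 t + 0.58)`),
then `ρ(k) ≥ 2` (`3`, `t + 1`). -/
theorem rho (k j t : ℕ)
    (h : t = 1 ∧ 49 ≤ sieveCount j k ∨ t = 2 ∧ 3560 ≤ sieveCount j k ∨
        2 ≤ t ∧ Real.exp (4 * t + 29 / 50) ≤ sieveCount j k) : ∃ᶠ x in atTop, t + 1 ≤ primesIn x k := by
  have h1 := result k j t h (1 / 2) (by norm_num)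
  rw [Filter.frequently_atTop]
  intro N
  by_contra hcon
  push Not at hcon
  obtain ⟨X, hX1, hX2⟩ := (h1.and (eventually_gt_atTop ((N : ℝ) ^ 2))).exists
  have hX0 : (0 : ℝ) < X := lt_of_le_of_lt (by positivity) hX2
  have hsub : {x : ℕ | (x : ℝ) ≤ X ∧ x ≡ j [MOD primorial k] ∧ t + 1 ≤ primesIn x k} ⊆
      ((range N : Finset ℕ) : Set ℕ) := by
    rintro x ⟨-, -, hx⟩
    rw [Finset.mem_coe, mem_range]
    by_contra hc
    exact absurd hx (not_le.2 (hcon x (not_lt.1 hc)))
  have hle := Set.ncard_le_ncard hsub (Finset.finite_toSet _)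
  rw [Set.ncard_coe_finset, card_range] at hle
  have h3 : X ^ (1 - 1 / 2 : ℝ) ≤ (N : ℝ) := hX1.trans (by exact_mod_cast hle)
  have h4 : (N : ℝ) < X ^ (1 - 1 / 2 : ℝ) := by
    have h5 : (1 - 1 / 2 : ℝ) = 1 / 2 := by norm_num
    rw [h5, ← Real.sqrt_eq_rpow]
    exact (Real.lt_sqrt (by positivity)).2 hX2
  linarith

/-- `ρ(241) ≥ 2`, `ρ(32779) ≥ 3`, `ρ(4209617) ≥ 4`. -/
theorem rho_values : (∃ᶠ x in atTop, 2 ≤ primesIn x 241) ∧ (∃ᶠ x in atTop, 3 ≤ primesIn x 32779) ∧
    (∃ᶠ x in atTop, 4 ≤ primesIn x 4209617) := by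
  refine ⟨?_, ?_, ?_⟩
  · obtain ⟨j, hj⟩ := window_of_adm 49 241 H95R2.BG.tup ⟨H95R2.BG.tup_admissible.1, H95R2.BG.tup_admissible.2⟩
      (by decide)
    exact rho 241 j 1 (Or.inl ⟨rfl, hj⟩)
  · obtain ⟨h, hA, hle⟩ := tup3'
    obtain ⟨j, hj⟩ := window_of_adm 3560 32779 h hA (fun i => by have := hle i; omega)
    exact rho 32779 j 2 (Or.inr (Or.inl ⟨rfl, hj⟩))
  · obtain ⟨h, hA, hle⟩ := tup4
    obtain ⟨j, hj⟩ := window_of_adm 290687 4209617 h hA (fun i => by have := hle i; omega)
    refine rho 4209617 j 3 (Or.inr (Or.inr ⟨by norm_num, ?_⟩))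
    have h1 := LOG_proof.2
    have h2 : Real.exp (4 * (3 : ℝ) + 29 / 50) ≤ 290687 := by
      rwa [Real.le_log_iff_exp_le (by norm_num)] at h1
    push_cast
    exact h2.trans (by exact_mod_cast hj)

end Pool.Agent.Results.MP_cbf366_nt.SieveCounts
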